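import Mathlib
import Pool.Agent.Lib.MP_3550b5_nt.AC.CuL

open Pool.Agent.Lib.MP_3550b5_nt

/-- The `p`-adic heights of the rational points of all elliptic curves over the rationals, for all
primes `p ≤ Y`. For every `ε > 0` there is a constant `C` such that for all integers `a ≠ 0`, all
`v p ∈ ℚ_p` (`p` prime) and all `B, T ≥ 1` and `Y` with `|a| ≤ B` there are at most
`C Y ^ 29 T ^ 5 B ^ ε` integers `b`, `|b| ≤ B`, for which the equation `E : y^2 = x^3 + a x + b` is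
minimal (there is no prime `q` with `q^4 ∣ a` and `q^6 ∣ b`) and for some prime `p` with
`5 ≤ p ≤ Y` the curve `E` has good ordinary reduction at `p` and a rational point `P = (x, y)` of
infinite order with numerator and denominator of `x` at most `2 ^ T` whose canonical cyclotomic
`p`-adic height `h(P)` satisfies `|h(P) - v p|_p ≤ p ^ (- C p ^ 28 T ^ 3 B ^ ε)`. -/
theorem Pool.Agent.Results.MP_3550b5_nt.AllPoints.result (ε : ℝ) (hε : 0 < ε) :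
    ∃ C : ℝ, ∀ a : ℤ, a ≠ 0 → ∀ v : (∀ (p : ℕ) [Fact p.Prime], ℚ_[p]),
      ∀ B T Y : ℕ, 1 ≤ B → 1 ≤ T → |a| ≤ B →
      ∀ X : Finset ℤ, (∀ b ∈ X, |b| ≤ B ∧
        (∀ q : ℕ, q.Prime → ¬ ((q : ℤ) ^ 4 ∣ a ∧ (q : ℤ) ^ 6 ∣ b)) ∧
        ∃ (p : ℕ) (_ : Fact p.Prime), 5 ≤ p ∧ p ≤ Y ∧ GoodOrdinary p a b ∧
        ∃ h : (curve a b).Point → (curve a b).Point → ℚ_[p], IsCanonicalHeight p a b h ∧
          ∃ (x y : ℚ) (hP : (curve a b).Nonsingular x y),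
            ¬ IsOfFinAddOrder (WeierstrassCurve.Affine.Point.some x y hP) ∧
              |x.num| ≤ 2 ^ T ∧ x.den ≤ 2 ^ T ∧
                ‖h (.some x y hP) (.some x y hP) - v p‖ ≤
                  (p : ℝ) ^ (-(C * (p : ℝ) ^ 28 * (T : ℝ) ^ 3 * (B : ℝ) ^ ε))) →
        (X.card : ℝ) ≤ C * (Y : ℝ) ^ 29 * (T : ℝ) ^ 5 * (B : ℝ) ^ ε := by
  obtain ⟨C, hC⟩ := AC.main_allY ε hε
  refine ⟨C, fun a ha v B T Y hB hT haB X hX => hC a ha v B T Y hB hT haB X fun b hb => ?_⟩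
  obtain ⟨h1, h2, p, hp, h3, h4, h5, h, hh, x, y, hP, h6, h7, h8, h9⟩ := hX b hb
  refine ⟨h1, p, hp, h3, h4, h (.some x y hP) (.some x y hP), h9, h5, h2, h, hh, .some x y hP, h6,
    ⟨h7, ?_⟩, rfl⟩
  change ((x.den : ℕ) : ℤ) ≤ 2 ^ T
  exact_mod_cast h8
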