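import Mathlib
import Pool.Agent.Lib.MP_3550b5_nt.G.FinalD

open Pool.Agent.Lib.MP_3550b5_nt

open scoped Classical in
/-- Small balls for the `p`-adic regulators of the fibres of an elliptic surface, for all families
of independent sections and all primes `5 ≤ p ≤ M ^ η` at once. Let `a, b` be integral binary forms
of degree `4 d, 6 d`, `d ≥ 1`, defining a family `E_t : y^2 = x^3 + a x + b` of curves over the
projective line, minimal in the sense that there is no nonconstant form `F` with `F ^ 4 ∣ a` and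
`F ^ 6 ∣ b`, and let `P 0, ..., P (r-1)` be linearly independent points of the generic fibre over
`ℚ(t)`, given by forms `X i`, `Y i`, `W i` as `(X i / W i ^ 2, Y i / W i ^ 3)`. Then there are
`η > 0` and `C` such that for all `1 ≤ M ≤ N` and all families `v` of `p`-adic numbers `v p`, one
for each prime `p`, at most `C M ^ (-η) N ^ 2` of the rational numbers `t` of height at most `N` are
exceptional, where `t` is exceptional if, for some prime `5 ≤ p ≤ M ^ η` for which `E_t` has good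
ordinary reduction, the `p`-adic regulator of the specialisations of the `P i` (or, if `v p = 0`,
the regulator of `E_t`, if `E_t` has rank `r`) is at distance at most `p ^ (-K)` from `v p`, for
some `K` with `p ^ K ≥ M`. -/
theorem Pool.Agent.Results.MP_3550b5_nt.AllSections.result
    (r d : ℕ) (hr : 1 ≤ r) (hd : 1 ≤ d) (a b : MvPolynomial (Fin 2) ℤ)
    (ha : a.IsHomogeneous (4 * d)) (hb : b.IsHomogeneous (6 * d))
    (hΔ : 4 * a ^ 3 + 27 * b ^ 2 ≠ 0)
    (hmin : ∀ F : MvPolynomial (Fin 2) ℚ, F ^ 4 ∣ a.map (Int.castRingHom ℚ) →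
      F ^ 6 ∣ b.map (Int.castRingHom ℚ) → IsUnit F)
    (P : Fin r → (genericCurve a b).Point) (hP : LinearIndependent ℤ P)
    (w : Fin r → ℕ) (X Y W : Fin r → MvPolynomial (Fin 2) ℤ)
    (hS : ∀ i, IsPointForm d a b (w i) (X i) (Y i) (W i) (P i)) :
    ∃ η C : ℝ, 0 < η ∧ ∀ M N : ℕ, 1 ≤ M → M ≤ N →
      ∀ v : (p : ℕ) → [Fact p.Prime] → ℚ_[p],
      (Set.ncard {t : ℚ | |t.num| ≤ N ∧ (t.den : ℤ) ≤ N ∧
        ∃ (p : ℕ) (_ : Fact p.Prime) (K : ℕ), 5 ≤ p ∧ (p : ℝ) ≤ (M : ℝ) ^ η ∧ M ≤ p ^ K ∧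
        FibreNear p (v p) K a b X Y W t} : ℝ) ≤ C * (M : ℝ) ^ (-η) * (N : ℝ) ^ 2 :=
  fibres_all hr hd ha hb hΔ hmin P hP hS
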