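import Mathlib
import Pool.Agent.Lib.MP_3550b5_nt.RG.Final

open Pool.Agent.Lib.MP_3550b5_nt

/-- Linear relations with `p`-adic coefficients between `p`-adic heights. Let
`E : y^2 = x^3 + a x + b` be an elliptic curve over the rationals with good ordinary reduction at
the prime `p ≥ 5`, let `B` be its canonical cyclotomic `p`-adic height pairing, let
`P 0, ..., P (r - 1)` be linearly independent rational points, let `Q 0, ..., Q (s - 1)` be linearly
independent rational points, and let `u 0, ..., u (k - 1)` be linearly independent vectors of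
`ℚ_p ^ s` such that the sum over `j` of `u i j * B (P l, Q j)` is `0` for all `i` and `l`.
(1) If all `Q j` lie in the group generated by the `P l`, then `2 * k ≤ s + 2`,
`k * r ≤ (s + 1) * (s + 2 - k)`, and `s * r ≤ s + 2` in the case `k = s`. (For `Q = P` this says
that the matrix of the `B (P i, P j)` has rank at least `r / 2 - 1`; for `k = 1` it says that the
coordinates of a nonzero vector of the kernel of the pairing span a rational vector space of
dimension at least `√r - 1`.)
(2) For any `Q j` one has `k * r ≤ (s + 1) * (s + 2 - k)` if `2 ≤ s` and `2 * k ≤ s + 2`. -/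
theorem Pool.Agent.Results.MP_3550b5_nt.RankBound.result (p : ℕ) [Fact p.Prime]
    (hp : 5 ≤ p) (a b : ℤ) (hord : GoodOrdinary p a b)
    (B : (curve a b).Point → (curve a b).Point → ℚ_[p]) (hB : IsCanonicalHeight p a b B)
    (r s k : ℕ) (P : Fin r → (curve a b).Point) (hP : LinearIndependent ℤ P)
    (Q : Fin s → (curve a b).Point) (hQ : LinearIndependent ℤ Q) (u : Fin k → Fin s → ℚ_[p])
    (hu : LinearIndependent ℚ_[p] u) (h0 : ∀ i l, ∑ j, u i j * B (P l) (Q j) = 0) :
    ((∀ j, Q j ∈ Submodule.span ℤ (Set.range P)) →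
      2 * k ≤ s + 2 ∧ k * r ≤ (s + 1) * (s + 2 - k) ∧ (k = s → s * r ≤ s + 2)) ∧
    (2 ≤ s → 2 * k ≤ s + 2 → k * r ≤ (s + 1) * (s + 2 - k)) := by
  have hΔ : 4 * a ^ 3 + 27 * b ^ 2 ≠ 0 := by
    intro h0
    exact hord.1 (by rw [h0]; exact dvd_zero _)
  refine ⟨fun hQP => ?_, fun hs hk => MP3550b5.RG.relations_le hp hΔ hB hP hQ hu h0 hs hk⟩
  obtain ⟨h1, h2⟩ := MP3550b5.RG.kernel_le hp hΔ hB hP hQ hu h0 hQP
  refine ⟨h1, h2, fun hks => ?_⟩
  subst hks
  exact orth_bound hp hΔ hB hP hQ hQP fun i j => MP3550b5.RG.orth_of_all hu h0 i j
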