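import Mathlib
import Pool.Agent.Lib.MP_3550b5_nt.TP.Ver.Main2

open Pool.Agent.Lib.MP_3550b5_nt

/-- Rational points of the quadratic twists of an elliptic curve with a prescribed `p`-adic height.
Let `E : y^2 = x^3 + a x + b` have good ordinary reduction at the prime `p ≥ 5`. `HeightAt p a b x v`
says that the rational number `x` is the abscissa of a rational point of infinite order and of
canonical `p`-adic height `v` on a quadratic twist `D y^2 = x^3 + a x + b` (`D` squarefree, prime
to `p`); every `x` belongs to at most one twist.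

There is a constant `C > 0` such that for all `v` in `ℚ_[p]` and all `N ≥ 2` the set of the rational
numbers `x = m / n` (lowest terms) with `|m|, n ≤ N` whose height is `v` up to an error
`≤ exp (- C (log N)^4)` has at most `C (log N)^2` elements, and every plane curve `Q(m, n) = 0` over
`ℚ_[p]` of degree at most `d` contains at most `C d^2` of them. -/
theorem Pool.Agent.Results.MP_3550b5_nt.TwistPoints.result (p : ℕ) [Fact p.Prime]
    (hp : 5 ≤ p) (a b : ℤ) (hord : GoodOrdinary p a b) :
    ∃ C : ℝ, 0 < C ∧ ∀ (v : ℚ_[p]) (N : ℕ) (T : Finset ℚ), 2 ≤ N →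
      (∀ x ∈ T, |x.num| ≤ N ∧ x.den ≤ N ∧
        ∃ v', HeightAt p a b x v' ∧ ‖v' - v‖ ≤ Real.exp (-(C * Real.log N ^ 4))) →
      (T.card : ℝ) ≤ C * Real.log N ^ 2 ∧
      ∀ (d : ℕ) (Q : MvPolynomial (Fin 2) ℚ_[p]), Q ≠ 0 → Q.totalDegree ≤ d →
        ∀ S ⊆ T, (∀ x ∈ S, MvPolynomial.eval ![(x.num : ℚ_[p]), (x.den : ℚ_[p])] Q = 0) →
          (S.card : ℝ) ≤ C * (d : ℝ) ^ 2 :=
  Vr.twist_points_two hp hord
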